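import Pool.Agent.MP_6b3e96_gt.H77.Spec

/-!
The cell structure of the surface: cells are pairs of a face of the square and a coset of the
stabilizer of that face.
-/

open scoped Topology RealInnerProductSpace
open Set Filter Metric

noncomputable section

namespace Pool.Agent.MP_6b3e96_gt.H72

open Pool.Agent.MP_6b3e96_gt.H77

/-- Faces of the square. -/
abbrev Face := Fin 3 × Fin 3

/-- One coordinate of the parametrization of a face. -/
def co (a : Fin 3) (t : ℝ) : ℝ := if a = 0 then 0 else if a = 1 then 1 else (t + 1) / 2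
/-- First coordinate. -/
def c0 {n : ℕ} (x : Fin n → ℝ) : ℝ := if h : 0 < n then x ⟨0, h⟩ else 0
/-- Last coordinate. -/
def c1 {n : ℕ} (x : Fin n → ℝ) : ℝ := if h : 0 < n then x ⟨n - 1, by omega⟩ else 0
/-- Parametrization of a face. -/
def par (n : ℕ) (f : Face) (x : Fin n → ℝ) : ℂ := ⟨co f.1 (c0 x), co f.2 (c1 x)⟩
/-- Dimension of a face. -/
def dm (f : Face) : ℕ := (if f.1 = 2 then 1 else 0) + (if f.2 = 2 then 1 else 0)
/-- Type of a coordinate. -/
def ty (t : ℝ) : Fin 3 := by classical exact if t = 0 then 0 else if t = 1 then 1 else 2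
/-- The face of a point. -/
def face (w : ℂ) : Face := (ty w.re, ty w.im)
/-- The sides containing a face. -/
def sides (f : Face) : Set (Fin 4) := {i | ![f.2 = 0, f.1 = 0, f.1 = 1, f.2 = 1] i}
/-- The stabilizer of a face. -/
def stab (f : Face) : Subgroup (E4 ≃ₗᵢ[ℝ] E4) := Subgroup.closure (refl '' sides f)

lemma ty_eq_zero (t : ℝ) : ty t = 0 ↔ t = 0 := by
  unfold ty; split_ifs with h1 h2 <;> simp_all

lemma ty_eq_one (t : ℝ) : ty t = 1 ↔ t = 1 := by
  unfold ty; split_ifs with h1 h2 <;> simp_all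

lemma ty_eq_two (t : ℝ) : ty t = 2 ↔ t ≠ 0 ∧ t ≠ 1 := by
  unfold ty; split_ifs with h1 h2 <;> simp_all

lemma ty_co (a : Fin 3) {t : ℝ} (ht : |t| < 1) : ty (co a t) = a := by
  obtain ⟨h1, h2⟩ := abs_lt.1 ht
  fin_cases a
  · simp [co, ty_eq_zero]
  · simp [co, ty_eq_one]
  · simp only [co, Fin.reduceFinMk, Fin.reduceEq, if_false, ty_eq_two]
    constructor <;> intro h <;> linarith

lemma co_mem (a : Fin 3) {t : ℝ} (ht : |t| ≤ 1) : co a t ∈ Icc (0 : ℝ) 1 := by
  obtain ⟨h1, h2⟩ := abs_le.1 ht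
  unfold co
  split_ifs
  · simp
  · simp
  · constructor <;> linarith

lemma co_ty {t : ℝ} (ht : t ∈ Icc (0 : ℝ) 1) :
    (ty t = 2 → |2 * t - 1| < 1 ∧ co (ty t) (2 * t - 1) = t) ∧ (ty t ≠ 2 → ∀ s, co (ty t) s = t) := by
  refine ⟨fun h => ?_, fun h s => ?_⟩
  · obtain ⟨h0, h1⟩ := (ty_eq_two t).1 h
    rw [h]
    refine ⟨abs_lt.2 ⟨?_, ?_⟩, ?_⟩
    · have := lt_of_le_of_ne ht.1 (Ne.symm h0); linarith
    · have := lt_of_le_of_ne ht.2 h1; linarith
    · simp [co]
  · by_cases h0 : t = 0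
    · simp [h0, co, (ty_eq_zero 0).2 rfl]
    · by_cases h1 : t = 1
      · simp [h1, co, (ty_eq_one 1).2 rfl]
      · exact absurd ((ty_eq_two t).2 ⟨h0, h1⟩) h

lemma ty_co_ne (a : Fin 3) (t : ℝ) (h : a ≠ 2 ∨ |t| = 1) : ty (co a t) ≠ 2 := by
  rw [Ne, ty_eq_two]
  unfold co
  split_ifs with h0 h1
  · simp
  · simp
  · have ha : a = 2 := by omega
    rcases h with h | h
    · exact absurd ha h
    · rcases (abs_eq zero_le_one).1 h with h | h <;> rw [h] <;> norm_num

lemma continuous_co (a : Fin 3) : Continuous (co a) := by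
  unfold co
  split_ifs <;> fun_prop

lemma continuous_c0 (n : ℕ) : Continuous (c0 (n := n)) := by
  unfold c0
  split_ifs <;> fun_prop

lemma continuous_c1 (n : ℕ) : Continuous (c1 (n := n)) := by
  unfold c1
  split_ifs <;> fun_prop

lemma continuous_par (n : ℕ) (f : Face) : Continuous (par n f) := by
  have h : par n f = fun x => Complex.equivRealProdCLM.symm (co f.1 (c0 x), co f.2 (c1 x)) := by
    funext x
    apply Complex.ext <;> simp [par]
  rw [h]
  exact Complex.equivRealProdCLM.symm.continuous.comp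
    (((continuous_co _).comp (continuous_c0 n)).prodMk ((continuous_co _).comp (continuous_c1 n)))

lemma abs_c0 {n : ℕ} (x : Fin n → ℝ) : |c0 x| ≤ ‖x‖ := by
  unfold c0
  split_ifs
  · exact norm_le_pi_norm x _
  · simp

lemma abs_c1 {n : ℕ} (x : Fin n → ℝ) : |c1 x| ≤ ‖x‖ := by
  unfold c1
  split_ifs
  · exact norm_le_pi_norm x _
  · simp

lemma par_mem {n : ℕ} (f : Face) {x : Fin n → ℝ} (hx : x ∈ closedBall (0 : Fin n → ℝ) 1) :
    par n f x ∈ Sq := by
  rw [mem_closedBall_zero_iff] at hx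
  exact ⟨co_mem _ ((abs_c0 x).trans hx), co_mem _ ((abs_c1 x).trans hx)⟩

lemma face_par {n : ℕ} (f : Face) {x : Fin n → ℝ} (hx : x ∈ ball (0 : Fin n → ℝ) 1) :
    face (par n f x) = f := by
  rw [mem_ball_zero_iff] at hx
  exact Prod.ext (ty_co _ ((abs_c0 x).trans_lt hx)) (ty_co _ ((abs_c1 x).trans_lt hx))

/-- Every coordinate is a free coordinate of the face. -/
lemma coord {n : ℕ} {f : Face} (hf : dm f = n) (j : Fin n) :
    (f.1 = 2 ∧ ∀ x : Fin n → ℝ, c0 x = x j) ∨ (f.2 = 2 ∧ ∀ x : Fin n → ℝ, c1 x = x j) := by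
  have hj := j.2
  have hn : 0 < n := by omega
  unfold dm at hf
  by_cases h1 : f.1 = 2 <;> by_cases h2 : f.2 = 2 <;> simp only [h1, h2, if_true, if_false] at hf
  · by_cases h : (j : ℕ) = 0
    · left
      refine ⟨h1, fun x => ?_⟩
      rw [c0, dif_pos hn]; congr 1; exact Fin.ext h.symm
    · right
      refine ⟨h2, fun x => ?_⟩
      rw [c1, dif_pos hn]; congr 1; exact Fin.ext (by simp only; omega)
  · left
    refine ⟨h1, fun x => ?_⟩
    rw [c0, dif_pos hn]; congr 1; exact Fin.ext (by simp only; omega)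
  · right
    refine ⟨h2, fun x => ?_⟩
    rw [c1, dif_pos hn]; congr 1; exact Fin.ext (by simp only; omega)
  · omega

lemma par_inj {n : ℕ} {f : Face} (hf : dm f = n) : Function.Injective (par n f) := by
  intro x y h
  funext j
  rcases coord hf j with ⟨h1, h2⟩ | ⟨h1, h2⟩
  · have := congrArg Complex.re h
    simp only [par, h1, co, h2, Fin.reduceEq, if_false] at this
    linarith
  · have := congrArg Complex.im h
    simp only [par, h1, co, h2, Fin.reduceEq, if_false] at this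
    linarith

lemma dm_par_lt {n : ℕ} {f : Face} (hf : dm f = n) {x : Fin n → ℝ}
    (hx : x ∈ sphere (0 : Fin n → ℝ) 1) : dm (face (par n f x)) < n := by
  rw [mem_sphere_zero_iff_norm] at hx
  obtain ⟨j, hj⟩ : ∃ j, |x j| = 1 := by
    by_contra h
    push Not at h
    have : ‖x‖ < 1 := (pi_norm_lt_iff one_pos).2 fun j =>
      lt_of_le_of_ne (hx ▸ norm_le_pi_norm x j) (h j)
    linarith
  have a1 : f.1 ≠ 2 → ty (co f.1 (c0 x)) ≠ 2 := fun h => ty_co_ne _ _ (Or.inl h)
  have a2 : f.2 ≠ 2 → ty (co f.2 (c1 x)) ≠ 2 := fun h => ty_co_ne _ _ (Or.inl h)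
  have hc := coord hf j
  unfold dm at hf ⊢
  simp only [face, par]
  rcases hc with ⟨h1, h2⟩ | ⟨h1, h2⟩
  · have b : ty (co f.1 (c0 x)) ≠ 2 := ty_co_ne _ _ (Or.inr (by rw [h2, hj]))
    rw [if_neg b]
    rw [if_pos h1] at hf
    by_cases h : f.2 = 2
    · rw [if_pos h] at hf; split_ifs <;> omega
    · rw [if_neg (a2 h)]; omega
  · have b : ty (co f.2 (c1 x)) ≠ 2 := ty_co_ne _ _ (Or.inr (by rw [h2, hj]))
    rw [if_neg b]
    rw [if_pos h1] at hf
    by_cases h : f.1 = 2
    · rw [if_pos h] at hf; split_ifs <;> omega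
    · rw [if_neg (a1 h)]; omega

lemma exists_par {w : ℂ} (hw : w ∈ Sq) {n : ℕ} (hn : dm (face w) = n) :
    ∃ x ∈ ball (0 : Fin n → ℝ) 1, par n (face w) x = w := by
  obtain ⟨p1, q1⟩ := co_ty hw.1
  obtain ⟨p2, q2⟩ := co_ty hw.2
  unfold dm face at hn
  by_cases h1 : ty w.re = 2 <;> by_cases h2 : ty w.im = 2 <;>
    simp only [h1, h2, if_true, if_false] at hn <;> subst hn
  · refine ⟨![2 * w.re - 1, 2 * w.im - 1], ?_, ?_⟩
    · rw [mem_ball_zero_iff, pi_norm_lt_iff one_pos]
      intro j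
      fin_cases j
      · exact (p1 h1).1
      · exact (p2 h2).1
    · exact Complex.ext (p1 h1).2 (p2 h2).2
  · refine ⟨fun _ => 2 * w.re - 1, ?_, ?_⟩
    · rw [mem_ball_zero_iff, pi_norm_lt_iff one_pos]
      exact fun _ => (p1 h1).1
    · exact Complex.ext (p1 h1).2 (q2 h2 _)
  · refine ⟨fun _ => 2 * w.im - 1, ?_, ?_⟩
    · rw [mem_ball_zero_iff, pi_norm_lt_iff one_pos]
      exact fun _ => (p2 h2).1
    · exact Complex.ext (q1 h1 _) (p2 h2).2
  · exact ⟨0, mem_ball_self one_pos, Complex.ext (q1 h1 _) (q2 h2 _)⟩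

lemma sd_iff (i : Fin 4) (w : ℂ) : sd i w = 0 ↔ i ∈ sides (face w) := by
  fin_cases i
  · simp [sd, sides, face, ty_eq_zero]
  · simp [sd, sides, face, ty_eq_zero]
  · exact (sub_eq_zero.trans eq_comm).trans (ty_eq_one _).symm
  · exact (sub_eq_zero.trans eq_comm).trans (ty_eq_one _).symm

lemma stab_le (f : Face) : stab f ≤ W :=
  Subgroup.closure_mono (image_subset_range _ _)

lemma zero_set (P : Pc) {w : ℂ} (hw : w ∈ Sq) :
    {i | ⟪root i, P.g w⟫ = 0} = sides (face w) := by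
  ext i
  exact ((P.cham w hw i).2).trans (sd_iff i w)

lemma stab_fix (P : Pc) {w : ℂ} (hw : w ∈ Sq) {h : E4 ≃ₗᵢ[ℝ] E4} (hh : h ∈ stab (face w)) :
    h (P.g w) = P.g w := by
  induction hh using Subgroup.closure_induction with
  | mem x hx =>
    obtain ⟨i, hi, rfl⟩ := hx
    rw [← zero_set P hw] at hi
    exact Submodule.reflection_mem_subspace_eq_self
      (Submodule.mem_orthogonal_singleton_iff_inner_right.2 hi)
  | one => rfl
  | mul x y _ _ hx hy => rw [LinearIsometryEquiv.coe_mul, Function.comp_apply, hy, hx]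
  | inv x _ hx =>
    conv_lhs => rw [← hx]
    exact x.symm_apply_apply _

lemma key (hG : GroupStmt) (P : Pc) {k k' : W} {w w' : ℂ} (hw : w ∈ Sq) (hw' : w' ∈ Sq)
    (h : k.1 (P.g w) = k'.1 (P.g w')) : w = w' ∧ (k'⁻¹ * k).1 ∈ stab (face w) := by
  have e : (k'⁻¹ * k).1 (P.g w) = P.g w' := by
    change k'.1.symm (k.1 (P.g w)) = _
    rw [h]; exact k'.1.symm_apply_apply _
  have m := hG.2.1 _ (k'⁻¹ * k).2 (P.g w) (fun i => (P.cham w hw i).1)
    (fun i => by rw [e]; exact (P.cham w' hw' i).1)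
  rw [zero_set P hw] at m
  refine ⟨P.inj hw hw' ?_, m⟩
  rw [← e, stab_fix P hw m]

/-- Cosets of the stabilizer of a face. -/
abbrev Cos (f : Face) := W ⧸ (stab f).subgroupOf W

/-- The cells of dimension `n`. -/
abbrev Cell (n : ℕ) := Σ f : {f : Face // dm f = n}, Cos f.1

/-- The characteristic maps. -/
def chi (P : Pc) (n : ℕ) (c : Cell n) (x : Fin n → ℝ) : E4 := c.2.out.1 (P.g (par n c.1.1 x))

lemma chi_inj (P : Pc) (n : ℕ) (c : Cell n) : InjOn (chi P n c) (closedBall 0 1) :=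
  fun _ hx _ hy h =>
    par_inj c.1.2 (P.inj (par_mem _ hx) (par_mem _ hy) (c.2.out.1.injective h))

lemma chi_cont (P : Pc) (n : ℕ) (c : Cell n) : ContinuousOn (chi P n c) (closedBall 0 1) :=
  c.2.out.1.continuous.comp_continuousOn
    (P.cont.comp (continuous_par n _).continuousOn fun _ hx => par_mem _ hx)

/-- The characteristic maps with their inverses. -/
def chiE (P : Pc) (n : ℕ) (c : Cell n) : PartialEquiv (Fin n → ℝ) E4 :=
  ((chi_inj P n c).mono ball_subset_closedBall).toPartialEquiv (chi P n c) (ball 0 1)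

lemma chiE_coe (P : Pc) (n : ℕ) (c : Cell n) : ⇑(chiE P n c) = chi P n c := rfl

lemma chiE_symm (P : Pc) (n : ℕ) (c : Cell n) :
    ContinuousOn (chiE P n c).symm (chiE P n c).target := by
  rw [continuousOn_iff_isClosed]
  intro t ht
  refine ⟨chi P n c '' (t ∩ closedBall 0 1), ?_, ?_⟩
  · exact (((isCompact_closedBall 0 1).inter_left ht).image_of_continuousOn
      ((chi_cont P n c).mono inter_subset_right)).isClosed
  · ext y
    constructor
    · rintro ⟨h1, h2⟩
      exact ⟨⟨_, ⟨h1, ball_subset_closedBall ((chiE P n c).map_target h2)⟩,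
        (chiE P n c).right_inv h2⟩, h2⟩
    · rintro ⟨⟨x, ⟨hx1, hx2⟩, hx⟩, h2⟩
      refine ⟨?_, h2⟩
      have : (chiE P n c).symm y = x :=
        chi_inj P n c (ball_subset_closedBall ((chiE P n c).map_target h2)) hx2
          (((chiE P n c).right_inv h2).trans hx.symm)
      rw [mem_preimage, this]; exact hx1

lemma cover (P : Pc) (k : W) {w : ℂ} (hw : w ∈ Sq) :
    ∃ c : Cell (dm (face w)), k.1 (P.g w) ∈ chi P _ c '' closedBall 0 1 := by
  obtain ⟨x, hx, e⟩ := exists_par hw rfl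
  refine ⟨⟨⟨face w, rfl⟩, QuotientGroup.mk k⟩, x, ball_subset_closedBall hx, ?_⟩
  obtain ⟨h, hh⟩ := QuotientGroup.mk_out_eq_mul ((stab (face w)).subgroupOf W) k
  simp only [chi]
  rw [e, hh]
  change k.1 (h.1.1 (P.g w)) = _
  rw [stab_fix P hw (Subgroup.mem_subgroupOf.1 h.2)]

lemma card_cos (hG : GroupStmt) (f : Face) : Nat.card (Cos f) * Nat.card (stab f) = 1152 := by
  obtain ⟨e, -⟩ := hG.1
  have h1 : Nat.card W = 1152 := by
    rw [← Nat.card_congr e]; simp
  rw [← h1, Subgroup.card_eq_card_quotient_mul_card_subgroup ((stab f).subgroupOf W),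
    Nat.card_congr (Subgroup.subgroupOfEquivOfLe (stab_le f)).toEquiv]

lemma card_stab (hG : GroupStmt) (f : Face) :
    Nat.card (stab f) = ![![8, 4, 2], ![4, 4, 2], ![2, 2, 1]] f.1 f.2 := by
  obtain ⟨-, -, h1, h2, h3, h4, h5⟩ := hG
  have s00 : sides (0, 0) = {0, 1} := by ext i; fin_cases i <;> simp [sides]
  have s01 : sides (0, 1) = {1, 3} := by ext i; fin_cases i <;> simp [sides]
  have s02 : sides (0, 2) = {1} := by ext i; fin_cases i <;> simp [sides]
  have s10 : sides (1, 0) = {0, 2} := by ext i; fin_cases i <;> simp [sides]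
  have s11 : sides (1, 1) = {2, 3} := by ext i; fin_cases i <;> simp [sides]
  have s12 : sides (1, 2) = {2} := by ext i; fin_cases i <;> simp [sides]
  have s20 : sides (2, 0) = {0} := by ext i; fin_cases i <;> simp [sides]
  have s21 : sides (2, 1) = {3} := by ext i; fin_cases i <;> simp [sides]
  have s22 : sides (2, 2) = ∅ := by ext i; fin_cases i <;> simp [sides]
  obtain ⟨a, b⟩ := f
  unfold stab
  fin_cases a <;> fin_cases b <;> simp only [Fin.zero_eta, Fin.mk_one, Fin.reduceFinMk]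
  · rw [s00, image_pair]; exact h2
  · rw [s01, image_pair]; exact h4
  · rw [s02, image_singleton]; exact h1 1
  · rw [s10, image_pair]; exact h3
  · rw [s11, image_pair]; exact h5
  · rw [s12, image_singleton]; exact h1 2
  · rw [s20, image_singleton]; exact h1 0
  · rw [s21, image_singleton]; exact h1 3
  · rw [s22, image_empty, Subgroup.closure_empty]; simp

/-- The number of cosets. -/
def ncos (f : Face) : ℕ := ![![144, 288, 576], ![288, 288, 576], ![576, 576, 1152]] f.1 f.2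

lemma card_cos' (hG : GroupStmt) (f : Face) : Nat.card (Cos f) = ncos f := by
  have h := card_cos hG f
  rw [card_stab hG f] at h
  obtain ⟨a, b⟩ := f
  generalize Nat.card (Cos (a, b)) = m at h ⊢
  fin_cases a <;> fin_cases b <;> simp [ncos] at h ⊢ <;> omega

lemma finite_cos (hG : GroupStmt) (f : Face) : Finite (Cos f) := by
  obtain ⟨e, -⟩ := hG.1
  have : Finite W := Finite.of_equiv _ e
  infer_instance

lemma card_cell (hG : GroupStmt) (n : ℕ) :
    Nat.card (Cell n) = ∑ f : Face, if dm f = n then ncos f else 0 := by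
  have := finite_cos hG
  rw [Nat.card_sigma]
  simp only [card_cos' hG]
  rw [← Finset.sum_filter]
  exact (Finset.sum_subtype _ (fun f => by simp) ncos).symm

theorem cell : GroupStmt → CellStmt := by
  intro hG P
  have hf := finite_cos hG
  have he : ∀ k, 3 ≤ k → IsEmpty (Cell k) := fun k hk =>
    ⟨fun c => by
      have := c.1.2
      unfold dm at this
      split_ifs at this <;> omega⟩
  refine ⟨Topology.CWComplex.mkFinite P.M Cell (chiE P) (eventually_atTop.2 ⟨3, he⟩)
    (fun n => inferInstance) (fun _ _ => rfl) (chi_cont P) (chiE_symm P) ?_ ?_ ?_,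
    fun n => (inferInstance : Finite (Cell n)), he, ?_⟩
  · rintro ⟨n, ⟨f, hf⟩, q⟩ - ⟨n', ⟨f', hf'⟩, q'⟩ - hne
    rw [Function.onFun, disjoint_left]
    rintro y ⟨x, hx, e⟩ ⟨x', hx', e'⟩
    apply hne
    obtain ⟨h1, h2⟩ := key hG P (par_mem f (ball_subset_closedBall hx))
      (par_mem f' (ball_subset_closedBall hx')) (e.trans e'.symm)
    have h3 : f = f' := by rw [← face_par f hx, h1, face_par f' hx']
    subst h3
    obtain rfl : n = n' := hf.symm.trans hf'
    rw [face_par f hx] at h2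
    have h4 : q' = q := by
      rw [← QuotientGroup.out_eq' q', ← QuotientGroup.out_eq' q]
      exact QuotientGroup.eq.2 (Subgroup.mem_subgroupOf.2 h2)
    rw [h4]
  · intro n c x hx
    obtain ⟨c', hc'⟩ := cover P c.2.out (par_mem c.1.1 (sphere_subset_closedBall hx))
    exact mem_iUnion₂.2 ⟨_, dm_par_lt c.1.2 hx, mem_iUnion.2 ⟨c', hc'⟩⟩
  · ext y
    simp only [mem_iUnion, Pc.M]
    constructor
    · rintro ⟨n, c, x, hx, rfl⟩
      exact ⟨c.2.out.1, c.2.out.2, _, ⟨_, par_mem _ hx, rfl⟩, rfl⟩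
    · rintro ⟨k, hk, _, ⟨w, hw, rfl⟩, rfl⟩
      obtain ⟨c, hc⟩ := cover P ⟨k, hk⟩ hw
      exact ⟨_, c, hc⟩
  · change (Nat.card (Cell 0) : ℤ) - Nat.card (Cell 1) + Nat.card (Cell 2) = _
    have a0 : (∑ f : Face, if dm f = 0 then ncos f else 0) = 1008 := by decide
    have a1 : (∑ f : Face, if dm f = 1 then ncos f else 0) = 2304 := by decide
    have a2 : (∑ f : Face, if dm f = 2 then ncos f else 0) = 1152 := by decide
    rw [card_cell hG, card_cell hG, card_cell hG, a0, a1, a2]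
    norm_num

end Pool.Agent.MP_6b3e96_gt.H72
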